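import Pool.Agent.R629.NF.Weights

/-!
# MP_4819b8_nt: Ramanujan or transcendental

Let `K` be a number field, `a_v = θ(T_v)` and `b_v = θ(S_v)` the values of a non-trivial character of
the Hecke algebra, and suppose the bound `|z| ≤ q_v^{1/2 + δ}`, `δ < 1/2`, for the roots `z` of
`X² - a_v X + b_v q_v` (known with `δ = 7/64`).  Let `Q_j`, `j ∈ J`, be a countable family of systems
of polynomials whose roots have absolute values `q_v^{m/2}` with integers `m`, for instance the
characteristic polynomials of Frobenius on the étale cohomology groups of all smooth projective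
varieties over `K`, with Tate twists, and with weights at most `2w`, where `w ≥ 1/2 + δ`.  Then the
Ramanujan bound `|a_v| ≤ 2 q_v^{1/2}` holds for all but finitely many `v`, or the values `l(t)` of the
Euler product of `θ` on the line `Re s = 1 + w` are transcendental, for almost all `t`, over every field
generated by countably many constants, the values of the Euler products of all the `Q_j` at the same
point, the number `t` and the numbers `p^{-it}`.
-/

set_option autoImplicit false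

namespace Pool.Agent.Results.MP_4819b8_nt.RamanujanOrTranscendental

open NumberField IsDedekindDomain Polynomial
open Pool.Agent.R629.NF
open Pool.Agent.TH339.MP (nm pr dg nm_eq dg_pos)

/-- The Hecke polynomial `X² - a_v X + b_v q_v`. -/
noncomputable def heckePoly {K : Type} [Field K] [NumberField K]
    (a b : HeightOneSpectrum (𝓞 K) → ℂ) (v : HeightOneSpectrum (𝓞 K)) : ℂ[X] :=
  X ^ 2 - C (a v) * X + C (b v * (nm v : ℂ))

lemma hecke_monic {K : Type} [Field K] [NumberField K] (a b : HeightOneSpectrum (𝓞 K) → ℂ)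
    (v : HeightOneSpectrum (𝓞 K)) : (heckePoly a b v).Monic ∧ (heckePoly a b v).natDegree = 2 := by
  have h1 : heckePoly a b v = C 1 * X ^ 2 + C (-a v) * X + C (b v * (nm v : ℂ)) := by
    unfold heckePoly
    rw [C_1, C_neg]
    ring
  have h2 : (heckePoly a b v).natDegree = 2 := by
    rw [h1]
    exact natDegree_quadratic one_ne_zero
  refine ⟨?_, h2⟩
  rw [Monic, leadingCoeff, h2, h1]
  simp

lemma one_lt_nm {K : Type} [Field K] [NumberField K] (v : HeightOneSpectrum (𝓞 K)) :
    (1 : ℝ) < ((nm v : ℕ) : ℝ) := by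
  rw [nm_eq]
  exact_mod_cast Nat.one_lt_pow (dg_pos v).ne' (pr v).2.one_lt

/-- **Ramanujan or transcendental.** -/
theorem result (K : Type) [Field K] [NumberField K] {S : Finset ℕ} (hS : Unram K S)
    (a b : HeightOneSpectrum (𝓞 K) → ℂ) (hb : ∀ v, (pr v : ℕ) ∉ S → ‖b v‖ = 1)
    {δ : ℝ} (hδ : δ < 1 / 2)
    (ha : ∀ v, (pr v : ℕ) ∉ S → ∀ z ∈ (heckePoly a b v).roots,
      ‖z‖ ≤ ((nm v : ℕ) : ℝ) ^ (1 / 2 + δ))
    {w : ℝ} (hw : 1 / 2 + δ ≤ w)
    {J : Type} [Countable J] (m : J → ℕ) (SJ : J → Finset ℕ) (hSJ : ∀ j, Unram K (SJ j))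
    (Q : J → HeightOneSpectrum (𝓞 K) → ℂ[X]) (hQ : ∀ j, IsSysLe (SJ j) (m j) w (Q j))
    (hW : ∀ j, HasWeights (SJ j) (Q j)) :
    ((∃ l : ℝ → ℂ, IsEdgeOf S 2 (heckePoly a b) w l) ∧
      ∀ j, ∃ l : ℝ → ℂ, IsEdgeOf (SJ j) (m j) (Q j) w l) ∧
    ∀ (l : ℝ → ℂ) (lQ : J → ℝ → ℂ), IsEdgeOf S 2 (heckePoly a b) w l →
      (∀ j, IsEdgeOf (SJ j) (m j) (Q j) w (lQ j)) →
      {v : HeightOneSpectrum (𝓞 K) | ¬ ‖a v‖ ≤ 2 * ((nm v : ℕ) : ℝ) ^ (1 / 2 : ℝ)}.Finite ∨
        IndependentOf l lQ := by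
  classical
  have hP : IsSysLe S 2 w (heckePoly a b) := by
    intro v hv
    refine ⟨(hecke_monic a b v).1, (hecke_monic a b v).2, fun z hz => ⟨?_, ?_⟩⟩
    · rintro rfl
      have h1 := (mem_roots (hecke_monic a b v).1.ne_zero).1 hz
      unfold heckePoly at h1
      rw [IsRoot, eval_add, eval_sub, eval_pow, eval_mul, eval_C, eval_C, eval_X] at h1
      have h2 : b v * (nm v : ℂ) = 0 := by linear_combination h1
      have h3 := one_lt_nm v
      rcases mul_eq_zero.1 h2 with h4 | h4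
      · have := hb v hv
        rw [h4, norm_zero] at this
        exact zero_ne_one this
      · have h5 : (nm v : ℝ) = 0 := by exact_mod_cast h4
        linarith
    · exact (ha v hv z hz).trans (Real.rpow_le_rpow_of_exponent_le (one_lt_nm v).le hw)
  refine ⟨⟨exists_edgeOf_le hS hP, fun j => exists_edgeOf_le (hSJ j) (hQ j)⟩,
    fun l lQ hl hlQ => ?_⟩
  obtain ⟨A, B, hA, hB, h1, h2⟩ := sys_var hS hSJ hP hQ hl hlQ
  rcases h2 with h3 | h3
  · left
    obtain ⟨T, hST, hT⟩ := weights_of_relation hP hQ hW hA hB (h1.2 h3)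
    have hfin : {v : HeightOneSpectrum (𝓞 K) | (pr v : ℕ) ∈ T}.Finite := by
      have h4 : {v : HeightOneSpectrum (𝓞 K) | (pr v : ℕ) ∈ T} ⊆
          ⋃ p ∈ {p : Nat.Primes | (p : ℕ) ∈ T},
            ((Pool.Agent.TH339.MP.Sp p : Finset (HeightOneSpectrum (𝓞 K))) :
              Set (HeightOneSpectrum (𝓞 K))) := by
        intro v hv
        rw [Set.mem_iUnion₂]
        exact ⟨pr v, hv, Finset.mem_coe.2 ((Pool.Agent.TH339.MP.mem_Sp _ _).2 rfl)⟩
      refine Set.Finite.subset (Set.Finite.biUnion ?_ fun p _ => Finset.finite_toSet _) h4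
      exact Set.Finite.preimage (f := fun p : Nat.Primes => (p : ℕ))
        Subtype.val_injective.injOn T.finite_toSet
    refine hfin.subset fun v hv => ?_
    by_contra hvT
    apply hv
    have hvS : (pr v : ℕ) ∉ S := fun h => hvT (hST h)
    obtain ⟨α, hα⟩ := exists_rt (hecke_monic a b v).1 (hecke_monic a b v).2
    rw [Fin.prod_univ_two] at hα
    have hr : ∀ i, α i ∈ (heckePoly a b v).roots := by
      intro i
      rw [mem_roots (hecke_monic a b v).1.ne_zero, IsRoot, hα]
      fin_cases i <;> simp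
    have e0 := congrArg (eval 0) hα
    have e1 := congrArg (eval 1) hα
    unfold heckePoly at e0 e1
    simp only [eval_add, eval_sub, eval_pow, eval_mul, eval_C, eval_X] at e0 e1
    have hprod : α 0 * α 1 = b v * (nm v : ℂ) := by linear_combination -e0
    have hsum : a v = α 0 + α 1 := by linear_combination -e1 + e0
    obtain ⟨m0, hm0⟩ := hT v hvT _ (hr 0)
    obtain ⟨m1, hm1⟩ := hT v hvT _ (hr 1)
    have hq := one_lt_nm v
    have hq0 : (0 : ℝ) < ((nm v : ℕ) : ℝ) := by linarith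
    have hlt : ∀ (i : Fin 2) (k : ℤ), ‖α i‖ = ((nm v : ℕ) : ℝ) ^ ((k : ℝ) / 2) → k ≤ 1 := by
      intro i k hk
      have h5 := ha v hvS _ (hr i)
      rw [hk, Real.rpow_le_rpow_left_iff hq] at h5
      have h6 : (k : ℝ) < 2 := by linarith
      have h7 : k < 2 := by exact_mod_cast h6
      omega
    have hmul : ‖α 0‖ * ‖α 1‖ = ((nm v : ℕ) : ℝ) ^ (1 : ℝ) := by
      rw [← norm_mul, hprod, norm_mul, hb v hvS, one_mul, Complex.norm_natCast, Real.rpow_one]
    rw [hm0, hm1, ← Real.rpow_add hq0] at hmul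
    have h5 : (m0 : ℝ) / 2 + (m1 : ℝ) / 2 = 1 :=
      le_antisymm ((Real.rpow_le_rpow_left_iff hq).1 hmul.le)
        ((Real.rpow_le_rpow_left_iff hq).1 hmul.ge)
    have h6 : m0 + m1 = 2 := by
      have : (m0 : ℝ) + m1 = 2 := by linarith
      exact_mod_cast this
    have h7 := hlt 0 m0 hm0
    have h8 := hlt 1 m1 hm1
    have h9 : m0 = 1 := by omega
    have h10 : m1 = 1 := by omega
    rw [h9] at hm0
    rw [h10] at hm1
    push_cast at hm0 hm1
    calc ‖a v‖ = ‖α 0 + α 1‖ := by rw [hsum]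
      _ ≤ ‖α 0‖ + ‖α 1‖ := norm_add_le _ _
      _ = 2 * ((nm v : ℕ) : ℝ) ^ (1 / 2 : ℝ) := by
        rw [hm0, hm1]
        ring
  · exact Or.inr h3

end Pool.Agent.Results.MP_4819b8_nt.RamanujanOrTranscendental
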