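import Pool.Agent.R314.SX.W2

/-!
# Weight two Hecke characters of `GL_2`: the violations of the Ramanujan-Petersson bound are bounded, at every scale, by
the small eigenvalues

Let `K` be any number field and `θ` a character of the Hecke algebra of `H^d(Y_1(𝔫), ℂ)` attached to a cuspidal
representation `π` of `GL_2` over `K` with cuspidal symmetric powers `sym^j π`, `j ≤ 4`, and `y_v = |θ(T_v)|² / N v`; the
conjectured bound is `y_v ≤ 4`. `W_j(y) = U_j(√y)²`, so `|tr sym^j π_v|² = W_j(y_v)`. Let `c ≥ 1/2` be such that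
`ζ_K(s)` has no real zeros in `(c, 1)`, `1 ≤ j ≤ 4` and `N_j(X)` the number of the primes `v` of norm `≤ X` with
`W_j(y_v) < 1` (`y_v < 1` for `j = 1`, `0 < y_v < 2` for `j = 2`, `y_v ∈ (0,1) ∪ (2,3)` for `j = 4`). We show for every
`ε > 0` and **all** large `X`:

  `∑ y_v^j` over the violations `y_v > 4` of norm `≤ X` is at most `X^ε (N_j(X^{1+ε}) + X^c)`,

and the second term can be left out if there is one violation
`|θ(T_℘)| > N℘^{1/2} (N℘^{c/2j} + N℘^{-c/2j})`. In particular (`j = 1`) the violations are never polynomially more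
frequent than the primes with `|θ(T_v)|² < N v`, whatever their size.
-/

set_option autoImplicit false

namespace Pool.Agent.Results.MP_4819b8_nt.ViolationsAgainstSmall

open NumberField IsDedekindDomain Filter
open Pool.Agent.R314.SX (IsWeightTwo W2 W2_one W2_two_lt W2_four_lt W2_large nf_excess nf_excess2 NS NS_nonneg NS_mono
  qq_le_fin)
open Pool.Agent.TH861.GL3 (PL qq qq_pos)

open scoped Classical in
/-- **The violations of the Ramanujan-Petersson bound are bounded by the small eigenvalues.** -/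
theorem result {K : Type*} [Field K] [NumberField K] {S : Finset (HeightOneSpectrum (𝓞 K))} {T R : PL S → ℂ}
    {α : PL S → Fin 2 → ℂ} {Z : ℂ → ℂ} (f : IsWeightTwo S T R α Z) {j : ℕ} (hj1 : 1 ≤ j) (hj4 : j ≤ 4) {c : ℝ}
    (hc : 1 / 2 ≤ c) (hz : ∀ x : ℝ, c < x → x < 1 → Z (x : ℂ) ≠ 0) {ε : ℝ} (hε : 0 < ε) :
    (∀ᶠ X : ℝ in atTop,
      (∑' v : PL S, if (qq v.1 : ℝ) ≤ X then max 0 (W2 j (‖T v‖ ^ 2 / (qq v.1 : ℝ)) - 1) else 0) ≤
        X ^ ε * ((({v : PL S | (qq v.1 : ℝ) ≤ X ^ (1 + ε) ∧ W2 j (‖T v‖ ^ 2 / (qq v.1 : ℝ)) < 1}.ncard : ℕ) : ℝ) +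
          X ^ c)) ∧
    (∀ᶠ X : ℝ in atTop,
      (∑' v : PL S, if (qq v.1 : ℝ) ≤ X ∧ 2 * Real.sqrt (qq v.1 : ℝ) < ‖T v‖ then (‖T v‖ ^ 2 / (qq v.1 : ℝ)) ^ j
        else 0) ≤
        X ^ ε * ((({v : PL S | (qq v.1 : ℝ) ≤ X ^ (1 + ε) ∧ W2 j (‖T v‖ ^ 2 / (qq v.1 : ℝ)) < 1}.ncard : ℕ) : ℝ) +
          X ^ c)) ∧
    ((∃ v : PL S, Real.sqrt (qq v.1 : ℝ) * ((qq v.1 : ℝ) ^ (c / (2 * j)) + (qq v.1 : ℝ) ^ (-(c / (2 * j)))) < ‖T v‖) →
      ∀ᶠ X : ℝ in atTop,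
      (∑' v : PL S, if (qq v.1 : ℝ) ≤ X ∧ 2 * Real.sqrt (qq v.1 : ℝ) < ‖T v‖ then (‖T v‖ ^ 2 / (qq v.1 : ℝ)) ^ j
        else 0) ≤
        X ^ ε * (({v : PL S | (qq v.1 : ℝ) ≤ X ^ (1 + ε) ∧ W2 j (‖T v‖ ^ 2 / (qq v.1 : ℝ)) < 1}.ncard : ℕ) : ℝ)) ∧
    ∀ y : ℝ, (W2 1 y < 1 ↔ y < 1) ∧ (W2 2 y < 1 ↔ 0 < y ∧ y < 2) ∧
      (W2 4 y < 1 ↔ (0 < y ∧ y < 1) ∨ (2 < y ∧ y < 3)) := by
  obtain ⟨N, β, κ, h⟩ := f.sym j hj1 hj4
  set M : ℝ → ℝ := fun X =>
    (({v : PL S | (qq v.1 : ℝ) ≤ X ∧ W2 j (‖T v‖ ^ 2 / (qq v.1 : ℝ)) < 1}.ncard : ℕ) : ℝ) with hM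
  have hNS : ∀ X, NS 1 (Pool.Agent.R314.SX.symP α j) X = M X := fun X => by
    rw [hM]
    unfold NS
    simp only [f.trace hj1 hj4, Nat.cast_one]
  have hM0 : ∀ X, 0 ≤ M X := fun X => Nat.cast_nonneg _
  have hMm : ∀ X Y : ℝ, X ≤ Y → M X ≤ M Y := fun X Y hXY => by
    rw [← hNS, ← hNS]
    exact NS_mono hXY
  -- the weight of the violations
  have hviol : ∀ X : ℝ, (∑' v : PL S, if (qq v.1 : ℝ) ≤ X ∧ 2 * Real.sqrt (qq v.1 : ℝ) < ‖T v‖ then
      (‖T v‖ ^ 2 / (qq v.1 : ℝ)) ^ j else 0) ≤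
      32 * ∑' v : PL S, if (qq v.1 : ℝ) ≤ X then max 0 (W2 j (‖T v‖ ^ 2 / (qq v.1 : ℝ)) - 1) else 0 := by
    intro X
    rw [← tsum_mul_left]
    refine Summable.tsum_le_tsum (fun v => ?_) ?_ ?_
    · by_cases h1 : (qq v.1 : ℝ) ≤ X
      · by_cases h2 : 2 * Real.sqrt (qq v.1 : ℝ) < ‖T v‖
        · rw [if_pos ⟨h1, h2⟩, if_pos h1]
          have hq := qq_pos v.1
          have h3 : 4 < ‖T v‖ ^ 2 / (qq v.1 : ℝ) := by
            rw [lt_div_iff₀ hq]
            have h4 := mul_self_lt_mul_self (by positivity) h2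
            have h5 := Real.mul_self_sqrt hq.le
            nlinarith
          refine (W2_large hj1 hj4 h3).trans ?_
          exact mul_le_mul_of_nonneg_left (le_max_right _ _) (by norm_num)
        · rw [if_neg (fun h3 => h2 h3.2), if_pos h1]
          exact mul_nonneg (by norm_num) (le_max_left _ _)
      · rw [if_neg (fun h3 => h1 h3.1), if_neg h1, mul_zero]
    · refine summable_of_hasFiniteSupport ((qq_le_fin (S := S) X).subset fun v hv => ?_)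
      by_contra h7
      exact hv (if_neg fun h8 => h7 h8.1)
    · refine summable_of_hasFiniteSupport ((qq_le_fin (S := S) X).subset fun v hv => ?_)
      by_contra h7
      have h8 : ¬ (qq v.1 : ℝ) ≤ X := h7
      refine hv ?_
      show 32 * _ = (0 : ℝ)
      rw [if_neg h8, mul_zero]
  have hpow : ∀ C η : ℝ, 0 < η → ∀ᶠ X : ℝ in atTop, C ≤ X ^ η := fun C η hη =>
    (tendsto_rpow_atTop hη).eventually_ge_atTop C
  have hex : ∀ ε : ℝ, 0 < ε → ∀ᶠ X : ℝ in atTop,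
      (∑' v : PL S, if (qq v.1 : ℝ) ≤ X then max 0 (W2 j (‖T v‖ ^ 2 / (qq v.1 : ℝ)) - 1) else 0) ≤
        X ^ ε * (M (X ^ (1 + ε)) + X ^ c) := by
    intro ε hε
    have h1 := nf_excess le_rfl h hc hz hε
    simp only [f.trace hj1 hj4, Nat.cast_one, hNS] at h1
    exact h1
  refine ⟨hex ε hε, ?_, fun ⟨v, hv⟩ => ?_, fun y => ⟨by rw [W2_one], W2_two_lt, W2_four_lt⟩⟩
  · filter_upwards [hex (ε / 2) (by positivity), hpow 32 (ε / 2) (by positivity), eventually_ge_atTop 1] with X a1 a2 a3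
    have hX0 : 0 < X := by linarith
    have b1 : M (X ^ (1 + ε / 2)) ≤ M (X ^ (1 + ε)) := hMm _ _ (Real.rpow_le_rpow_of_exponent_le a3 (by linarith))
    have b2 : X ^ (ε / 2) * X ^ (ε / 2) = X ^ ε := by
      rw [← Real.rpow_add hX0]
      congr 1
      ring
    have b3 : 0 < X ^ (ε / 2) := by positivity
    have b4 : 0 < X ^ c := by positivity
    calc _ ≤ 32 * _ := hviol X
      _ ≤ 32 * (X ^ (ε / 2) * (M (X ^ (1 + ε / 2)) + X ^ c)) := mul_le_mul_of_nonneg_left a1 (by norm_num)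
      _ ≤ X ^ (ε / 2) * (X ^ (ε / 2) * (M (X ^ (1 + ε)) + X ^ c)) := by
          refine mul_le_mul a2 (mul_le_mul_of_nonneg_left (by linarith) b3.le) ?_ b3.le
          exact mul_nonneg b3.le (add_nonneg (hM0 _) b4.le)
      _ = X ^ ε * (M (X ^ (1 + ε)) + X ^ c) := by rw [← b2]; ring
  · have hadm := f.adm hj1 (β := β) (κ := κ) (by linarith) hv
    have h1 := nf_excess2 le_rfl h hc hz hadm (ε := ε / 2) (by positivity)
    simp only [f.trace hj1 hj4, Nat.cast_one, hNS] at h1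
    filter_upwards [h1, hpow 32 (ε / 2) (by positivity), eventually_ge_atTop 1] with X a1 a2 a3
    have hX0 : 0 < X := by linarith
    have b1 : M (X ^ (1 + ε / 2)) ≤ M (X ^ (1 + ε)) := hMm _ _ (Real.rpow_le_rpow_of_exponent_le a3 (by linarith))
    have b2 : X ^ (ε / 2) * X ^ (ε / 2) = X ^ ε := by
      rw [← Real.rpow_add hX0]
      congr 1
      ring
    have b3 : 0 < X ^ (ε / 2) := by positivity
    calc _ ≤ 32 * _ := hviol X
      _ ≤ 32 * (X ^ (ε / 2) * M (X ^ (1 + ε / 2))) := mul_le_mul_of_nonneg_left a1 (by norm_num)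
      _ ≤ X ^ (ε / 2) * (X ^ (ε / 2) * M (X ^ (1 + ε))) := by
          refine mul_le_mul a2 (mul_le_mul_of_nonneg_left b1 b3.le) ?_ b3.le
          exact mul_nonneg b3.le (hM0 _)
      _ = X ^ ε * M (X ^ (1 + ε)) := by rw [← b2]; ring

end Pool.Agent.Results.MP_4819b8_nt.ViolationsAgainstSmall
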