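import Pool.Agent.R314.SX.W2

/-!
# Weight two Hecke characters of `GL_2`: a violation of the Ramanujan-Petersson bound at one prime forces many small
eigenvalues at every scale

Let `K` be any number field and `θ` a character of the Hecke algebra of `H^d(Y_1(𝔫), ℂ)` attached to a cuspidal
representation `π` of `GL_2` over `K`, and `y_v = |θ(T_v)|² / N v`, so that the conjectured bound is `y_v ≤ 4`. We
assume that `sym^j π` is cuspidal for `j ≤ 4` (known unless `π` is dihedral, tetrahedral or octahedral; Gelbart-Jacquet,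
Kim, Kim-Shahidi). Let `W_j(y) = U_j(√y)²` be the polynomial with `|tr sym^j π_v|² = W_j(y_v)`; its mean is `1`. Let
`c ≥ 1/2` be such that `ζ_K(s)` has no real zeros in `(c, 1)` and let `1 ≤ j ≤ 4`.

If `|θ(T_℘)| > N℘^{1/2} (N℘^{c/2j} + N℘^{-c/2j})` for a single prime `℘`, then for every `δ > 0` and **all** large `X`
there are at least `X^c` primes `v` with norm in `[X^{1-δ}, X]` and `W_j(y_v) < 1`. For `j = 4`, `c = 1/2` the exponent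
`c / 2j` is `1/16` (known is `7/64`), and `W_4(y) < 1` means `0 < y < 1` or `2 < y < 3`; for `j = 1` it means `y < 1`,
for `j = 2` it means `0 < y < 2`. So if for arbitrarily large `X` fewer than `X^{1/2}` primes of norm in `[X^{1-δ}, X]`
have `y_v ∈ (0,1) ∪ (2,3)`, then `|θ(T_v)| ≤ N v^{1/2} (N v^{1/16} + N v^{-1/16})` for all `v`.
-/

set_option autoImplicit false

namespace Pool.Agent.Results.MP_4819b8_nt.ViolationsEveryScale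

open NumberField IsDedekindDomain Filter
open Pool.Agent.R314.SX (IsWeightTwo W2 W2_one W2_two_lt W2_four_lt nf_windows nf_count)
open Pool.Agent.TH861.GL3 (PL qq)

open scoped Classical in
/-- **A violation of the Ramanujan-Petersson bound forces small eigenvalues at every scale.** -/
theorem result {K : Type*} [Field K] [NumberField K] {S : Finset (HeightOneSpectrum (𝓞 K))} {T R : PL S → ℂ}
    {α : PL S → Fin 2 → ℂ} {Z : ℂ → ℂ} (f : IsWeightTwo S T R α Z) {j : ℕ} (hj1 : 1 ≤ j) (hj4 : j ≤ 4) {c : ℝ}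
    (hc : 1 / 2 ≤ c) (hz : ∀ x : ℝ, c < x → x < 1 → Z (x : ℂ) ≠ 0) {δ : ℝ} (hδ : 0 < δ) :
    ((∃ v : PL S, Real.sqrt (qq v.1 : ℝ) * ((qq v.1 : ℝ) ^ (c / (2 * j)) + (qq v.1 : ℝ) ^ (-(c / (2 * j)))) < ‖T v‖) →
      (∀ᶠ X : ℝ in atTop, X ^ c ≤ ∑' v : PL S,
        if X ^ (1 - δ) ≤ (qq v.1 : ℝ) ∧ (qq v.1 : ℝ) ≤ X then max 0 (1 - W2 j (‖T v‖ ^ 2 / (qq v.1 : ℝ))) else 0) ∧
      (∀ᶠ X : ℝ in atTop, X ^ c ≤ (({v : PL S | (X ^ (1 - δ) ≤ (qq v.1 : ℝ) ∧ (qq v.1 : ℝ) ≤ X) ∧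
        W2 j (‖T v‖ ^ 2 / (qq v.1 : ℝ)) < 1}.ncard : ℕ) : ℝ))) ∧
    ((∃ᶠ X : ℝ in atTop, (({v : PL S | (X ^ (1 - δ) ≤ (qq v.1 : ℝ) ∧ (qq v.1 : ℝ) ≤ X) ∧
        W2 j (‖T v‖ ^ 2 / (qq v.1 : ℝ)) < 1}.ncard : ℕ) : ℝ) < X ^ c) →
      ∀ v : PL S, ‖T v‖ ≤ Real.sqrt (qq v.1 : ℝ) *
        ((qq v.1 : ℝ) ^ (c / (2 * j)) + (qq v.1 : ℝ) ^ (-(c / (2 * j))))) ∧
    ∀ y : ℝ, (W2 1 y < 1 ↔ y < 1) ∧ (W2 2 y < 1 ↔ 0 < y ∧ y < 2) ∧
      (W2 4 y < 1 ↔ (0 < y ∧ y < 1) ∨ (2 < y ∧ y < 3)) := by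
  obtain ⟨N, β, κ, h⟩ := f.sym j hj1 hj4
  have key : ∀ v : PL S,
      Real.sqrt (qq v.1 : ℝ) * ((qq v.1 : ℝ) ^ (c / (2 * j)) + (qq v.1 : ℝ) ^ (-(c / (2 * j)))) < ‖T v‖ →
      (∀ᶠ X : ℝ in atTop, X ^ c ≤ ∑' v : PL S,
        if X ^ (1 - δ) ≤ (qq v.1 : ℝ) ∧ (qq v.1 : ℝ) ≤ X then max 0 (1 - W2 j (‖T v‖ ^ 2 / (qq v.1 : ℝ))) else 0) ∧
      (∀ᶠ X : ℝ in atTop, X ^ c ≤ (({v : PL S | (X ^ (1 - δ) ≤ (qq v.1 : ℝ) ∧ (qq v.1 : ℝ) ≤ X) ∧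
        W2 j (‖T v‖ ^ 2 / (qq v.1 : ℝ)) < 1}.ncard : ℕ) : ℝ)) := by
    intro v hv
    have hadm := f.adm hj1 (β := β) (κ := κ) (by linarith) hv
    have h1 := nf_windows h hc hz hadm hδ
    have h2 := nf_count le_rfl h hc hz hadm hδ
    simp only [f.trace hj1 hj4, Nat.cast_one] at h1 h2
    exact ⟨h1, h2⟩
  refine ⟨fun ⟨v, hv⟩ => key v hv, fun hfr v => ?_, fun y => ⟨by rw [W2_one], W2_two_lt, W2_four_lt⟩⟩
  by_contra hcon
  push Not at hcon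
  exact hfr ((key v hcon).2.mono fun X hX => not_lt.2 hX)

end Pool.Agent.Results.MP_4819b8_nt.ViolationsEveryScale
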